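import Mathlib
import Pool.Agent.TH899.UG.ExU
import Pool.Agent.TH899.UG.BoxP
import Pool.Agent.TH899.UG.GD1

/-!
# The coloured Maynard-Tao theorem for arbitrary sets of constant terms, and Goldbach's problem

Inputs from the starting files: `Pool.Agent.TH899.UG.Uni.exactU` (the coloured Maynard-Tao theorem
with a constant below `4`, uniform in the constant terms), `Pool.Agent.TH899.UG.box_pow` (complete
multipartite subhypergraphs with polynomial bounds).
-/

set_option autoImplicit false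

namespace Run7.h619.PS

open Finset Filter Topology
open Pool.Agent.TH899.UG.Uni
open Pool.Agent.TH899.UG.GD (toNat_eq')

/-- the number of the ordered pairs of primes with sum `n` -/
def goldbach (n : ℕ) : ℕ :=
  ((antidiagonal n).filter (fun x => x.1.Prime ∧ x.2.Prime)).card

/-- the number of the primes `p ≤ y` such that `p + h` is prime -/
def primePairs (y h : ℕ) : ℕ :=
  ((Icc 1 y).filter (fun p => p.Prime ∧ (p + h).Prime)).card

/-- the form `n + x` (for `k = true`) or `m + x - n` (for `k = false`) -/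
def form (k : Bool) (m : ℕ) (x n : ℤ) : ℤ := if k then n + x else m + x - n

/-- the number of the `n ≤ 2 m` for which the forms with the indices in `F` are all prime -/
def simul {T : ℕ} (k : Fin T → Bool) (m : ℕ) (x : Fin T → ℤ) (F : Finset (Fin T)) : ℕ :=
  ((Icc 1 (2 * m)).filter (fun n : ℕ => ∀ g ∈ F, (form (k g) m (x g) n).toNat.Prime)).card

/-- slopes -/
def sl (k : Bool) : ℤ := if k then 1 else -1

/-- coefficients of `m` -/
def cs (k : Bool) : ℤ := if k then 0 else 1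

theorem form_eq (k : Bool) (m : ℕ) (x n : ℤ) : sl k * n + (cs k * m + x) = form k m x n := by
  cases k
  · show (-1 : ℤ) * n + (1 * m + x) = m + x - n
    ring
  · show (1 : ℤ) * n + (0 * m + x) = n + x
    ring

theorem sl_ne (k : Bool) : sl k ≠ 0 := by cases k <;> decide

theorem sl_abs (k : Bool) : |sl k| ≤ 1 := by cases k <;> decide

theorem kind (k : Bool) : (sl k = 1 ∧ cs k = 0) ∨ (sl k = -1 ∧ cs k = 1) := by
  cases k <;> decide

theorem simul_pairs {T : ℕ} (k : Fin T → Bool) (m : ℕ) (x : Fin T → ℤ) (F : Finset (Fin T))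
    (g g' : Fin T) (hg : g ∈ F) (hg' : g' ∈ F) (hk : k g = k g') (hx : 20 * |x g| ≤ m)
    (hx' : 20 * |x g'| ≤ m) : simul k m x F ≤ primePairs (3 * m) (x g - x g').natAbs := by
  wlog hle : x g' ≤ x g generalizing g g' with H
  · have h1 := H g' g hg' hg hk.symm hx' hx (by omega)
    have h2 : (x g' - x g).natAbs = (x g - x g').natAbs := by omega
    rwa [h2] at h1
  have hxa := abs_le.1 (show |x g| ≤ m by have := abs_nonneg (x g); linarith)
  have hxb := abs_le.1 (show |x g'| ≤ m by have := abs_nonneg (x g'); linarith)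
  unfold simul primePairs
  refine card_le_card_of_injOn (fun n : ℕ => (form (k g') m (x g') n).toNat) ?_ ?_
  · intro n hn
    obtain ⟨h1, h2⟩ := mem_filter.1 (mem_coe.1 hn)
    have h3 := h2 g hg
    have h4 := h2 g' hg'
    have h5 := toNat_eq' h3
    have h6 := toNat_eq' h4
    have h7 := mem_Icc.1 h1
    have h8 : form (k g) m (x g) n = form (k g') m (x g') n + (x g - x g').natAbs := by
      have h9 : ((x g - x g').natAbs : ℤ) = x g - x g' := by omega
      rw [h9, hk]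
      cases k g'
      · show (m : ℤ) + x g - n = m + x g' - n + (x g - x g')
        ring
      · show (n : ℤ) + x g = n + x g' + (x g - x g')
        ring
    have h10 : form (k g') m (x g') n ≤ 3 * m := by
      cases k g'
      · show (m : ℤ) + x g' - n ≤ 3 * m
        omega
      · show (n : ℤ) + x g' ≤ 3 * m
        omega
    refine mem_coe.2 (mem_filter.2 ⟨mem_Icc.2 ⟨h4.one_lt.le, ?_⟩, h4, ?_⟩)
    · show (form (k g') m (x g') n).toNat ≤ 3 * m
      omega
    · have h11 : (form (k g') m (x g') n).toNat + (x g - x g').natAbs =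
        (form (k g) m (x g) n).toNat := by omega
      show ((form (k g') m (x g') n).toNat + (x g - x g').natAbs).Prime
      rw [h11]
      exact h3
  · intro n hn n' hn' hnn
    have h5 := toNat_eq' ((mem_filter.1 (mem_coe.1 hn)).2 g' hg')
    have h6 := toNat_eq' ((mem_filter.1 (mem_coe.1 hn')).2 g' hg')
    have h7 : (form (k g') m (x g') n).toNat = (form (k g') m (x g') n').toNat := hnn
    rw [h7, h6] at h5
    revert h5
    cases k g'
    · intro h
      have h8 : (m : ℤ) + x g' - n' = m + x g' - n := h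
      omega
    · intro h
      have h8 : (n' : ℤ) + x g' = n + x g' := h
      omega

theorem simul_gold {T : ℕ} (k : Fin T → Bool) (m : ℕ) (x : Fin T → ℤ) (F : Finset (Fin T))
    (g g' : Fin T) (hg : g ∈ F) (hg' : g' ∈ F) (hk : k g ≠ k g') :
    simul k m x F ≤ goldbach (m + x g + x g').toNat := by
  unfold simul goldbach
  have hsum : ∀ n : ℕ, form (k g) m (x g) n + form (k g') m (x g') n = m + x g + x g' := by
    intro n
    revert hk
    cases k g <;> cases k g' <;> intro hk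
    · exact absurd rfl hk
    · show ((m : ℤ) + x g - n) + (n + x g') = m + x g + x g'
      ring
    · show ((n : ℤ) + x g) + (m + x g' - n) = m + x g + x g'
      ring
    · exact absurd rfl hk
  refine card_le_card_of_injOn (fun n : ℕ => ((form (k g) m (x g) n).toNat,
    (form (k g') m (x g') n).toNat)) ?_ ?_
  · intro n hn
    obtain ⟨h1, h2⟩ := mem_filter.1 (mem_coe.1 hn)
    have h3 := h2 g hg
    have h4 := h2 g' hg'
    have h5 := toNat_eq' h3
    have h6 := toNat_eq' h4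
    have h7 := hsum n
    refine mem_coe.2 (mem_filter.2 ⟨mem_antidiagonal.2 ?_, h3, h4⟩)
    show (form (k g) m (x g) n).toNat + (form (k g') m (x g') n).toNat = (m + x g + x g').toNat
    omega
  · intro n hn n' hn' hnn
    have h5 := toNat_eq' ((mem_filter.1 (mem_coe.1 hn)).2 g' hg')
    have h6 := toNat_eq' ((mem_filter.1 (mem_coe.1 hn')).2 g' hg')
    have h7 : (form (k g') m (x g') n).toNat = (form (k g') m (x g') n').toNat :=
      congrArg Prod.snd hnn
    rw [h7, h6] at h5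
    revert h5
    cases k g'
    · intro h
      have h8 : (m : ℤ) + x g' - n' = m + x g' - n := h
      omega
    · intro h
      have h8 : (n' : ℤ) + x g' = n + x g' := h
      omega

open Classical in
/-- **the input** -/
theorem core : ∃ c : ℝ, 0 < c ∧ c < 1 ∧ ∀ T M : ℕ, 1 ≤ T → (4 - c) * M < T →
    ∃ K : ℕ, 1 ≤ K ∧ ∀ η : ℝ, 0 < η → ∀ᶠ m : ℕ in atTop,
    ∀ (k : Fin T → Bool) (X : Fin T → Fin K → ℤ), (∀ g, Function.Injective (X g)) →
      (∀ g i, 20 * |X g i| ≤ m) → (∀ g g', g ≠ g' → ∀ i j, X g i ≠ X g' j) →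
      (∀ p : ℕ, p.Prime → p ≤ T * K → ∃ n : ℤ, ∀ g i, ¬ ((p : ℤ) ∣ form (k g) m (X g i) n)) →
      ∃ (F : Finset (Fin T)) (σ : Fin T → Fin K), M + 1 ≤ F.card ∧
        (m : ℝ) ^ (1 - η) ≤ simul k m (fun g => X g (σ g)) F := by
  obtain ⟨c, hc, hc1, H⟩ := exactU
  refine ⟨c, hc, hc1, fun T M hT hTM => ?_⟩
  obtain ⟨K, hK, H⟩ := H T M hT hTM
  refine ⟨K, hK, fun η hη => ?_⟩
  have htend : Tendsto (fun s : ℕ => (7 * s) / 4 + 1) atTop atTop :=
    tendsto_atTop.2 fun b => by
      filter_upwards [eventually_ge_atTop (4 * b)] with s hs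
      omega
  filter_upwards [htend.eventually (H 1 (min (η / 2) 1) (by positivity)),
    eventually_ge_atTop 1000,
    ((tendsto_rpow_atTop (by positivity : 0 < η / 2)).comp
      tendsto_natCast_atTop_atTop).eventually_ge_atTop 2]
    with m hN hs hs2
  simp only [Function.comp_apply] at hs2
  set N : ℕ := (7 * m) / 4 + 1 with hNdef
  have hN1 : 7 * m ≤ 4 * N := by omega
  have hN2 : 4 * N ≤ 7 * m + 4 := by omega
  have hN1r : (7 : ℝ) * m ≤ 4 * N := by exact_mod_cast hN1
  have hN2r : (4 : ℝ) * N ≤ 7 * m + 4 := by exact_mod_cast hN2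
  have hN1z : (7 : ℤ) * m ≤ 4 * N := by exact_mod_cast hN1
  have hN2z : (4 : ℤ) * N ≤ 7 * m + 4 := by exact_mod_cast hN2
  have hsr : (1000 : ℝ) ≤ m := by exact_mod_cast hs
  have hsz : (1000 : ℤ) ≤ m := by exact_mod_cast hs
  intro k X hinj hX20 hne hloc
  -- from the power of `N` to the power of `m`
  have hrp : (m : ℝ) ^ (1 - η) ≤ (N : ℝ) ^ (1 - min (η / 2) 1) := by
    have hs1 : (1 : ℝ) ≤ m := by linarith
    have hs0 : (0 : ℝ) < m := by linarith
    have h1 : (m : ℝ) ^ (1 - η) * 2 ≤ (m : ℝ) ^ (1 - η / 2) := by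
      have h2 : (m : ℝ) ^ (1 - η) * (m : ℝ) ^ (η / 2) = (m : ℝ) ^ (1 - η / 2) := by
        rw [← Real.rpow_add hs0]; congr 1; ring
      rw [← h2]
      exact mul_le_mul_of_nonneg_left hs2 (Real.rpow_nonneg hs0.le _)
    have h3 : (m : ℝ) ^ (1 - η / 2) ≤ (m : ℝ) ^ (1 - min (η / 2) 1) :=
      Real.rpow_le_rpow_of_exponent_le hs1 (by linarith [min_le_left (η / 2) 1])
    have hz0 : 0 ≤ 1 - min (η / 2) 1 := by linarith [min_le_right (η / 2) 1]
    have hz1 : 1 - min (η / 2) 1 ≤ 1 := by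
      have : 0 < min (η / 2) 1 := by positivity
      linarith
    have h4 : (m : ℝ) ^ (1 - min (η / 2) 1) ≤ (2 * N : ℝ) ^ (1 - min (η / 2) 1) :=
      Real.rpow_le_rpow hs0.le (by linarith) hz0
    have h5 : (2 * N : ℝ) ^ (1 - min (η / 2) 1) ≤ 2 * (N : ℝ) ^ (1 - min (η / 2) 1) := by
      rw [Real.mul_rpow (by norm_num) (Nat.cast_nonneg _)]
      apply mul_le_mul_of_nonneg_right _ (Real.rpow_nonneg (Nat.cast_nonneg _) _)
      calc (2 : ℝ) ^ (1 - min (η / 2) 1) ≤ 2 ^ (1 : ℝ) :=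
            Real.rpow_le_rpow_of_exponent_le (by norm_num) hz1
        _ = 2 := Real.rpow_one 2
    linarith
  have hXb : ∀ g i, -(m : ℤ) ≤ 20 * X g i ∧ 20 * X g i ≤ m := by
    intro g i
    have h1 := hX20 g i
    have h2 := neg_abs_le (X g i)
    have h3 := le_abs_self (X g i)
    constructor <;> linarith
  obtain ⟨S, σ, hS, hcnt⟩ := hN (fun g _ => sl (k g)) (fun g i => cs (k g) * m + X g i)
    (fun g _ => sl_ne _) (fun g _ => by exact_mod_cast sl_abs _)
    (fun g i => by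
      have h1 := hXb g i
      show 5 * |cs (k g) * m + X g i| ≤ 6 * (N : ℤ)
      have h2 : |cs (k g) * m + X g i| ≤ m + |X g i| := by
        refine (abs_add_le _ _).trans ?_
        gcongr
        rcases kind (k g) with ⟨-, e2⟩ | ⟨-, e2⟩ <;> rw [e2] <;> simp
      have h3 := hX20 g i
      linarith)
    (fun g i y h1 h2 => by
      have h3 := hXb g i
      have h3a : -(m : ℝ) ≤ 20 * X g i := by exact_mod_cast h3.1
      have h4 : (0 : ℝ) ≤ N := Nat.cast_nonneg _
      show (N : ℝ) / 30 ≤ (sl (k g) : ℝ) * y + ((cs (k g) * (m : ℤ) + X g i : ℤ) : ℝ)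
      push_cast
      rcases kind (k g) with ⟨e1, e2⟩ | ⟨e1, e2⟩
      · rw [e1, e2]
        push_cast
        linarith
      · rw [e1, e2]
        push_cast
        linarith)
    (by
      rintro ⟨g, i⟩ ⟨g', i'⟩ h
      have h1 : sl (k g) = sl (k g') := congrArg Prod.fst h
      have h2 : cs (k g) * (m : ℤ) + X g i = cs (k g') * m + X g' i' := congrArg Prod.snd h
      have hcs : cs (k g) = cs (k g') := by
        revert h1
        cases k g <;> cases k g' <;> decide
      have h4 : X g i = X g' i' := by rw [hcs] at h2; linarith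
      have h3 : g = g' := by
        by_contra hcon
        exact hne g g' hcon i i' h4
      subst h3
      rw [hinj g h4])
    (by
      intro p hp
      by_cases hpn : p ≤ T * K
      · obtain ⟨n, hn⟩ := hloc p hp hpn
        exact ⟨n, fun g i h => hn g i (by rwa [← form_eq])⟩
      · have := Fact.mk hp
        have hal : ∀ g, ((sl (k g) : ℤ) : ZMod p) ≠ 0 := by
          intro g h
          rw [ZMod.intCast_zmod_eq_zero_iff_dvd] at h
          have h1 := Int.le_of_dvd (abs_pos.2 (sl_ne (k g))) ((dvd_abs _ _).2 h)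
          have h2 := sl_abs (k g)
          have h3 := hp.two_le
          omega
        let f : Fin T × Fin K → ZMod p := fun x =>
          - (((cs (k x.1) * (m : ℤ) + X x.1 x.2 : ℤ)) : ZMod p) / ((sl (k x.1) : ℤ) : ZMod p)
        have hcard : (univ.image f).card < (univ : Finset (ZMod p)).card := by
          rw [card_univ, ZMod.card]
          have h2 : (univ.image f).card ≤ T * K := by
            refine card_image_le.trans ?_
            rw [card_univ, Fintype.card_prod, Fintype.card_fin, Fintype.card_fin]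
          omega
        obtain ⟨w, -, hw⟩ := Finset.exists_mem_notMem_of_card_lt_card hcard
        refine ⟨(w.val : ℤ), fun g i hd => hw (mem_image.2 ⟨(g, i), mem_univ _, ?_⟩)⟩
        rw [← ZMod.intCast_zmod_eq_zero_iff_dvd] at hd
        push_cast at hd
        rw [ZMod.natCast_zmod_val] at hd
        show - (((cs (k g) * (m : ℤ) + X g i : ℤ)) : ZMod p) / ((sl (k g) : ℤ) : ZMod p) = w
        rw [div_eq_iff (hal _)]
        push_cast
        linear_combination -hd)
  refine ⟨S, σ, hS, (hrp.trans hcnt).trans ?_⟩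
  rw [Nat.cast_le]
  unfold simul
  apply card_le_card
  intro n hn
  rw [mem_filter, mem_Icc] at hn ⊢
  refine ⟨⟨hn.1.1, by omega⟩, fun g hg => ?_⟩
  rw [← form_eq]
  exact hn.2 g hg

/-- among `W K` integers there are `K` which are congruent modulo `W` -/
theorem pick (W K : ℕ) (hW : 0 < W) (x : Fin (W * K) → ℤ) :
    ∃ (t : ℤ) (σ : Fin K → Fin (W * K)), Function.Injective σ ∧ ∀ i, (W : ℤ) ∣ x (σ i) - t := by
  classical
  have : NeZero W := ⟨hW.ne'⟩
  by_cases hK : K = 0
  · subst hK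
    exact ⟨0, fun i => i.elim0, fun i => i.elim0, fun i => i.elim0⟩
  have hcard : Fintype.card (ZMod W) * (K - 1) < Fintype.card (Fin (W * K)) := by
    rw [ZMod.card, Fintype.card_fin]
    exact Nat.mul_lt_mul_of_pos_left (by omega) hW
  obtain ⟨y, hy⟩ := Fintype.exists_lt_card_fiber_of_mul_lt_card
    (fun i => ((x i : ℤ) : ZMod W)) hcard
  set F := univ.filter (fun i => ((x i : ℤ) : ZMod W) = y) with hF
  have hFK : K ≤ F.card := by omega
  obtain ⟨F', hF', hF'c⟩ := Finset.exists_subset_card_eq hFK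
  let e := F'.equivFin
  let e' : Fin K ≃ F' := (finCongr hF'c.symm).trans e.symm
  refine ⟨((y.val : ℕ) : ℤ), fun i => (e' i : Fin (W * K)), fun i j hij => ?_, fun i => ?_⟩
  · exact e'.injective (Subtype.ext hij)
  · have h1 := (mem_filter.1 (hF' (e' i).2)).2
    rw [← ZMod.intCast_zmod_eq_zero_iff_dvd]
    push_cast
    rw [h1, ZMod.natCast_zmod_val, sub_self]

/-- local conditions -/
theorem loc (T K W m : ℕ) (n₀ : ℤ) (k : Fin T → Bool) (X : Fin T → Fin K → ℤ) (t : Fin T → ℤ)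
    (hW : ∀ p : ℕ, p.Prime → p ≤ T * K → p ∣ W)
    (ht : ∀ g i, (W : ℤ) ∣ X g i - t g)
    (ha : ∀ g i, IsCoprime (form (k g) m (X g i) n₀) (T.factorial : ℤ))
    (p : ℕ) (hp : p.Prime) (hpK : p ≤ T * K) :
    ∃ n : ℤ, ∀ g i, ¬ ((p : ℤ) ∣ form (k g) m (X g i) n) := by
  classical
  by_cases hpT : p ≤ T
  · refine ⟨n₀, fun g i h => ?_⟩
    have h6 : (p : ℤ) ∣ (T.factorial : ℤ) := by exact_mod_cast hp.dvd_factorial.2 hpT
    have hnu : ¬ IsUnit (p : ℤ) := (Nat.prime_iff_prime_int.1 hp).not_isUnit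
    exact hnu ((ha g i).isUnit_of_dvd' h h6)
  · have := Fact.mk hp
    have hal : ∀ g, ((sl (k g) : ℤ) : ZMod p) ≠ 0 := by
      intro g h
      rw [ZMod.intCast_zmod_eq_zero_iff_dvd] at h
      have h1 := Int.le_of_dvd (abs_pos.2 (sl_ne (k g))) ((dvd_abs _ _).2 h)
      have h2 := sl_abs (k g)
      have h3 := hp.two_le
      omega
    let f : Fin T → ZMod p := fun g =>
      - (((cs (k g) * (m : ℤ) + t g : ℤ)) : ZMod p) / ((sl (k g) : ℤ) : ZMod p)
    have hcard : (univ.image f).card < (univ : Finset (ZMod p)).card := by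
      rw [card_univ, ZMod.card]
      have h2 : (univ.image f).card ≤ T := by
        refine card_image_le.trans ?_
        rw [card_univ, Fintype.card_fin]
      omega
    obtain ⟨w, -, hw⟩ := Finset.exists_mem_notMem_of_card_lt_card hcard
    refine ⟨(w.val : ℤ), fun g i hd => hw (mem_image.2 ⟨g, mem_univ _, ?_⟩)⟩
    have h1 : (p : ℤ) ∣ X g i - t g :=
      (Int.natCast_dvd_natCast.2 (hW p hp hpK)).trans (ht g i)
    have h2 : (p : ℤ) ∣ sl (k g) * (w.val : ℤ) + (cs (k g) * m + t g) := by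
      have e : sl (k g) * (w.val : ℤ) + (cs (k g) * m + t g) =
        (sl (k g) * (w.val : ℤ) + (cs (k g) * m + X g i)) - (X g i - t g) := by ring
      rw [e, form_eq]
      exact dvd_sub hd h1
    rw [← ZMod.intCast_zmod_eq_zero_iff_dvd] at h2
    push_cast at h2
    rw [ZMod.natCast_zmod_val] at h2
    show - (((cs (k g) * (m : ℤ) + t g : ℤ)) : ZMod p) / ((sl (k g) : ℤ) : ZMod p) = w
    rw [div_eq_iff (hal _)]
    push_cast
    linear_combination -h2

theorem diag_card {T : ℕ} (X : Fin T → Finset ℤ) (g g' : Fin T) (h : g ≠ g') :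
    ((Fintype.piFinset X).filter (fun x => x g = x g')).card * (X g).card ≤
      (Fintype.piFinset X).card := by
  classical
  rw [← card_product]
  refine card_le_card_of_injOn (fun z => Function.update z.1 g z.2) ?_ ?_
  · rintro ⟨x, y⟩ hz
    obtain ⟨h1, h2⟩ := mem_product.1 (mem_coe.1 hz)
    have h3 := Fintype.mem_piFinset.1 (mem_filter.1 h1).1
    refine mem_coe.2 (Fintype.mem_piFinset.2 fun i => ?_)
    show Function.update x g y i ∈ X i
    by_cases hi : i = g
    · subst hi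
      rw [Function.update_self]
      exact h2
    · rw [Function.update_of_ne hi]
      exact h3 i
  · rintro ⟨x, y⟩ hz ⟨x', y'⟩ hz' hzz
    have h1 : x g = x g' := (mem_filter.1 (mem_product.1 (mem_coe.1 hz)).1).2
    have h1' : x' g = x' g' := (mem_filter.1 (mem_product.1 (mem_coe.1 hz')).1).2
    have hzz' : Function.update x g y = Function.update x' g y' := hzz
    have hy : y = y' := by
      have := congrFun hzz' g
      rwa [Function.update_self, Function.update_self] at this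
    have hx : ∀ i, i ≠ g → x i = x' i := fun i hi => by
      have := congrFun hzz' i
      rwa [Function.update_of_ne hi, Function.update_of_ne hi] at this
    have hxx : x = x' := by
      funext i
      by_cases hi : i = g
      · rw [hi, h1, h1', hx g' h.symm]
      · exact hx i hi
    rw [hxx, hy]

/-- the transversals for which no `M + 1` forms are often simultaneously prime -/
def Bad {T : ℕ} (M : ℕ) (η : ℝ) (k : Fin T → Bool) (m : ℕ) (x : Fin T → ℤ) : Prop :=
  ∀ F : Finset (Fin T), M + 1 ≤ F.card → (simul k m x F : ℝ) < (m : ℝ) ^ (1 - η)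

theorem aux_T (T ε P : ℝ) (hT : 0 < T) : T ^ 2 * (ε / (2 * T ^ 2) * P) = ε / 2 * P := by
  have hT' : T ≠ 0 := hT.ne'
  field_simp

open Classical in
/-- **Main theorem, for arbitrary sets.** -/
theorem main : ∃ c : ℝ, 0 < c ∧ c < 1 ∧ ∀ T M : ℕ, (4 - c) * M < T → ∃ (C : ℝ) (E : ℕ), 1 ≤ C ∧
    ∀ η : ℝ, 0 < η → ∀ᶠ m : ℕ in atTop,
    ∀ (ε : ℝ) (k : Fin T → Bool) (X : Fin T → Finset ℤ) (n₀ : ℤ), 0 < ε → ε ≤ 1 →
      (∀ g, C / ε ^ E ≤ (X g).card) → (∀ g, ∀ x ∈ X g, 20 * |x| ≤ m) →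
      (∀ g, ∀ x ∈ X g, IsCoprime (form (k g) m x n₀) (T.factorial : ℤ)) →
      (((Fintype.piFinset X).filter (fun x => Bad M η k m x)).card : ℝ) ≤
        ε * ∏ g, ((X g).card : ℝ) := by
  obtain ⟨c, hc, hc1, H⟩ := core
  refine ⟨c, hc, hc1, fun T M hTM => ?_⟩
  have hT : 1 ≤ T := by
    by_contra hcon
    have h0 : T = 0 := by omega
    rw [h0] at hTM
    have h1 : (0 : ℝ) ≤ M := Nat.cast_nonneg _
    push_cast at hTM
    nlinarith
  obtain ⟨K, hK, HC⟩ := H T M hT hTM
  set W : ℕ := (T * K + 3).factorial with hWd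
  have hW0 : 0 < W := Nat.factorial_pos _
  have hWp : ∀ p : ℕ, p.Prime → p ≤ T * K → p ∣ W := fun p hp hpK =>
    hp.dvd_factorial.2 (by omega)
  obtain ⟨C₁, E₁, hC₁, HB⟩ := Pool.Agent.TH899.UG.box_pow (W * K) T
  have hTr : (1 : ℝ) ≤ T := by exact_mod_cast hT
  refine ⟨max (C₁ * 2 ^ E₁) (2 * T ^ 2), E₁ + 1, ?_, fun η hη => ?_⟩
  · refine le_trans ?_ (le_max_right _ _)
    nlinarith
  filter_upwards [HC η hη] with m hm
  intro ε k X n₀ hε hε1 hX hX20 hX6
  by_contra hcon
  rw [not_le] at hcon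
  -- sizes
  have hsize : ∀ g, C₁ / (ε / 2) ^ E₁ ≤ (X g).card ∧ 2 * (T : ℝ) ^ 2 ≤ ε * (X g).card := by
    intro g
    have hx := hX g
    set x : ℝ := ((X g).card : ℝ) with hxd
    have hx0 : 0 ≤ x := Nat.cast_nonneg _
    have h1 : 0 < ε ^ (E₁ + 1) := by positivity
    rw [div_le_iff₀ h1] at hx
    have h2 : ε ^ (E₁ + 1) ≤ ε := by
      calc ε ^ (E₁ + 1) ≤ ε ^ 1 := pow_le_pow_of_le_one hε.le hε1 (by omega)
        _ = ε := pow_one ε
    have h3 : ε ^ (E₁ + 1) ≤ ε ^ E₁ := pow_le_pow_of_le_one hε.le hε1 (by omega)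
    constructor
    · rw [div_le_iff₀ (by positivity)]
      have h4 : C₁ * 2 ^ E₁ ≤ x * ε ^ (E₁ + 1) := (le_max_left _ _).trans hx
      have h5 : x * ε ^ (E₁ + 1) ≤ x * ε ^ E₁ := mul_le_mul_of_nonneg_left h3 hx0
      rw [div_pow, ← mul_div_assoc, le_div_iff₀ (by positivity)]
      exact h4.trans h5
    · calc 2 * (T : ℝ) ^ 2 ≤ x * ε ^ (E₁ + 1) := (le_max_right _ _).trans hx
        _ ≤ x * ε := mul_le_mul_of_nonneg_left h2 hx0
        _ = ε * x := mul_comm _ _
  obtain ⟨P, hP⟩ : ∃ P : ℝ, P = ∏ g, ((X g).card : ℝ) := ⟨_, rfl⟩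
  rw [← hP] at hcon
  have hPc : ((Fintype.piFinset X).card : ℝ) = P := by
    rw [Fintype.card_piFinset, hP]
    push_cast
    rfl
  have hP0 : 0 ≤ P := by rw [← hPc]; exact Nat.cast_nonneg _
  -- off the diagonals
  set Q := ((Fintype.piFinset X).filter (fun x => Bad M η k m x)).filter
    (fun x => Function.Injective x) with hQ
  have hQbig : ε / 2 * ∏ g, ((X g).card : ℝ) ≤ (Q.card : ℝ) := by
    rw [← hP]
    have h1 : (Fintype.piFinset X).filter (fun x => Bad M η k m x) ⊆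
        Q ∪ ((univ : Finset (Fin T × Fin T)).filter (fun y => y.1 ≠ y.2)).biUnion
          (fun y => (Fintype.piFinset X).filter (fun x => x y.1 = x y.2)) := by
      intro x hx
      by_cases h : Function.Injective x
      · exact mem_union_left _ (mem_filter.2 ⟨hx, h⟩)
      · refine mem_union_right _ ?_
        rw [Function.Injective] at h
        push Not at h
        obtain ⟨g, g', h2, h3⟩ := h
        exact mem_biUnion.2 ⟨(g, g'), mem_filter.2 ⟨mem_univ _, h3⟩,
          mem_filter.2 ⟨(mem_filter.1 hx).1, h2⟩⟩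
    have h2 := (card_le_card h1).trans ((card_union_le _ _).trans
      (Nat.add_le_add_left card_biUnion_le _))
    have h3 : (((Fintype.piFinset X).filter (fun x => Bad M η k m x)).card : ℝ) ≤ Q.card +
        ∑ y ∈ (univ : Finset (Fin T × Fin T)).filter (fun y => y.1 ≠ y.2),
          (((Fintype.piFinset X).filter (fun x => x y.1 = x y.2)).card : ℝ) := by
      have h0 := (Nat.cast_le (α := ℝ)).2 h2
      push_cast at h0
      exact h0
    have h4 : ∑ y ∈ (univ : Finset (Fin T × Fin T)).filter (fun y => y.1 ≠ y.2),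
          (((Fintype.piFinset X).filter (fun x => x y.1 = x y.2)).card : ℝ) ≤
        ∑ y ∈ (univ : Finset (Fin T × Fin T)).filter (fun y => y.1 ≠ y.2),
          ε / (2 * (T : ℝ) ^ 2) * P := by
      refine sum_le_sum fun y hy => ?_
      have h5 := diag_card X y.1 y.2 (mem_filter.1 hy).2
      have h6 : (((Fintype.piFinset X).filter (fun x => x y.1 = x y.2)).card : ℝ) *
          (X y.1).card ≤ P := by
        rw [← hPc]
        exact_mod_cast h5
      have h7 := (hsize y.1).2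
      set d : ℝ := (((Fintype.piFinset X).filter (fun x => x y.1 = x y.2)).card : ℝ) with hd
      have hd0 : 0 ≤ d := Nat.cast_nonneg _
      have hT2 : (0 : ℝ) < 2 * (T : ℝ) ^ 2 := by positivity
      rw [div_mul_eq_mul_div, le_div_iff₀ hT2]
      calc d * (2 * (T : ℝ) ^ 2) ≤ d * (ε * (X y.1).card) := mul_le_mul_of_nonneg_left h7 hd0
        _ = ε * (d * (X y.1).card) := by ring
        _ ≤ ε * P := mul_le_mul_of_nonneg_left h6 hε.le
    have h5 : ∑ y ∈ (univ : Finset (Fin T × Fin T)).filter (fun y => y.1 ≠ y.2),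
          ε / (2 * (T : ℝ) ^ 2) * P ≤ ε / 2 * P := by
      rw [sum_const, nsmul_eq_mul]
      have h6 : (((univ : Finset (Fin T × Fin T)).filter (fun y => y.1 ≠ y.2)).card : ℝ) ≤
          (T : ℝ) ^ 2 := by
        have h7 : ((univ : Finset (Fin T × Fin T)).filter (fun y => y.1 ≠ y.2)).card ≤ T ^ 2 := by
          refine (card_filter_le _ _).trans (le_of_eq ?_)
          rw [card_univ, Fintype.card_prod, Fintype.card_fin]
          ring
        exact_mod_cast h7
      have h8 : 0 ≤ ε / (2 * (T : ℝ) ^ 2) * P := mul_nonneg (by positivity) hP0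
      calc _ ≤ (T : ℝ) ^ 2 * (ε / (2 * (T : ℝ) ^ 2) * P) := mul_le_mul_of_nonneg_right h6 h8
        _ = ε / 2 * P := aux_T _ _ _ (by positivity)
    linarith
  obtain ⟨Y, hY1, hY2⟩ := HB (ε / 2) (by positivity) (by linarith) ℤ X (fun g => (hsize g).1) Q
    ((filter_subset _ _).trans (filter_subset _ _)) hQbig
  have hpick : ∀ g, ∃ (t : ℤ) (σ : Fin K → Fin (W * K)), Function.Injective σ ∧
      ∀ i, (W : ℤ) ∣ Y g (σ i) - t := fun g => pick W K hW0 (Y g)
  choose t σ hσ1 hσ2 using hpick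
  have hmem : ∀ v : Fin T → Fin K, (∀ g, Y g (σ g (v g)) ∈ X g) ∧
      Bad M η k m (fun g => Y g (σ g (v g))) ∧ Function.Injective (fun g => Y g (σ g (v g))) := by
    intro v
    obtain ⟨h1, h2⟩ := mem_filter.1 (hY2 (fun g => σ g (v g)))
    obtain ⟨h3, h4⟩ := mem_filter.1 h1
    exact ⟨Fintype.mem_piFinset.1 h3, h4, h2⟩
  have hin : ∀ g i, Y g (σ g i) ∈ X g := fun g i => (hmem fun _ => i).1 g
  obtain ⟨F, v, hF, hv⟩ := hm k (fun g i => Y g (σ g i)) (fun g i j hij => hσ1 g (hY1 g hij))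
    (fun g i => hX20 g _ (hin g i))
    (fun g g' hgg i j hij => by
      have h1 := (hmem (Function.update (fun _ => i) g' j)).2.2
      refine hgg (h1 ?_)
      show Y g (σ g (Function.update (fun _ => i) g' j g)) =
        Y g' (σ g' (Function.update (fun _ => i) g' j g'))
      rw [Function.update_of_ne hgg, Function.update_self]
      exact hij)
    (loc T K W m n₀ k (fun g i => Y g (σ g i)) t hWp hσ2 (fun g i => hX6 g _ (hin g i)))
  exact absurd ((hmem v).2.1 F hF) (not_lt.2 hv)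

open Classical in
/-- the pairs of elements of `A` whose difference is a difference of many pairs of primes -/
noncomputable def pd (η : ℝ) (m : ℕ) (A : Finset ℤ) : Finset (ℤ × ℤ) :=
  (A ×ˢ A).filter (fun x => (m : ℝ) ^ (1 - η) ≤ primePairs (3 * m) (x.1 - x.2).natAbs)

open Classical in
/-- the other pairs -/
noncomputable def nd (η : ℝ) (m : ℕ) (A : Finset ℤ) : Finset (ℤ × ℤ) :=
  (A ×ˢ A).filter (fun x => ¬ (m : ℝ) ^ (1 - η) ≤ primePairs (3 * m) (x.1 - x.2).natAbs)

open Classical in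
/-- the pairs with many Goldbach representations -/
noncomputable def gp (η : ℝ) (m : ℕ) (A B : Finset ℤ) : Finset (ℤ × ℤ) :=
  (A ×ˢ B).filter (fun x => (m : ℝ) ^ (1 - η) ≤ goldbach (m + x.1 + x.2).toNat)

theorem pd_nd (η : ℝ) (m : ℕ) (A : Finset ℤ) :
    (A.card : ℝ) ^ 2 = (pd η m A).card + (nd η m A).card := by
  classical
  have h := card_filter_add_card_filter_not (s := A ×ˢ A)
    (fun x => (m : ℝ) ^ (1 - η) ≤ primePairs (3 * m) (x.1 - x.2).natAbs)
  rw [card_product] at h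
  have h2 : (pd η m A).card + (nd η m A).card = A.card * A.card := h
  have h3 := congrArg (Nat.cast (R := ℝ)) h2
  push_cast at h3
  rw [h3]
  ring

theorem gp_swap (η : ℝ) (m : ℕ) (A B : Finset ℤ) : (gp η m B A).card = (gp η m A B).card := by
  classical
  refine card_nbij' Prod.swap Prod.swap ?_ ?_ (fun _ _ => rfl) (fun _ _ => rfl)
  · rintro ⟨x, y⟩ h
    obtain ⟨h1, h2⟩ := mem_filter.1 (mem_coe.1 h)
    refine mem_coe.2 (mem_filter.2 ⟨mem_product.2 (mem_product.1 h1).symm, ?_⟩)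
    show (m : ℝ) ^ (1 - η) ≤ goldbach (m + y + x).toNat
    rw [show (m : ℤ) + y + x = m + x + y by ring]
    exact h2
  · rintro ⟨x, y⟩ h
    obtain ⟨h1, h2⟩ := mem_filter.1 (mem_coe.1 h)
    refine mem_coe.2 (mem_filter.2 ⟨mem_product.2 (mem_product.1 h1).symm, ?_⟩)
    show (m : ℝ) ^ (1 - η) ≤ goldbach (m + y + x).toNat
    rw [show (m : ℤ) + y + x = m + x + y by ring]
    exact h2

/-- a transversal is bad if none of its pairs is good -/
theorem bad_of {T : ℕ} (η : ℝ) (k : Fin T → Bool) (m : ℕ) (x : Fin T → ℤ)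
    (hx : ∀ g, 20 * |x g| ≤ m)
    (h1 : ∀ g g', g < g' → k g = k g' →
      ¬ (m : ℝ) ^ (1 - η) ≤ primePairs (3 * m) (x g - x g').natAbs)
    (h2 : ∀ g g', g < g' → k g ≠ k g' → ¬ (m : ℝ) ^ (1 - η) ≤ goldbach (m + x g + x g').toNat) :
    Bad 1 η k m x := by
  intro F hF
  by_contra hcon
  rw [not_lt] at hcon
  obtain ⟨g, hg, g', hg', hlt⟩ : ∃ g ∈ F, ∃ g' ∈ F, g < g' := by
    have h1 : 1 < F.card := by omega
    obtain ⟨g, hg, g', hg', hne⟩ := Finset.one_lt_card.1 h1
    rcases lt_or_gt_of_ne hne with h | h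
    · exact ⟨g, hg, g', hg', h⟩
    · exact ⟨g', hg', g, hg, h⟩
  by_cases hk : k g = k g'
  · exact h1 g g' hlt hk (hcon.trans (Nat.cast_le.2
      (simul_pairs k m x F g g' hg hg' hk (hx g) (hx g'))))
  · exact h2 g g' hlt hk (hcon.trans (Nat.cast_le.2 (simul_gold k m x F g g' hg hg' hk)))

open Classical in
/-- **Goodman's inequality** for the complement of `pd` -/
theorem goodman (η : ℝ) (m : ℕ) (B : Finset ℤ) (ε : ℝ) (hε : 0 < ε)
    (h : (1 / 2 + ε) * (B.card : ℝ) ^ 2 ≤ (nd η m B).card) :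
    ε * (B.card : ℝ) ^ 3 ≤ ((((B ×ˢ B) ×ˢ B)).filter (fun x : (ℤ × ℤ) × ℤ =>
      (x.1.1, x.1.2) ∈ nd η m B ∧ (x.1.1, x.2) ∈ nd η m B ∧ (x.1.2, x.2) ∈ nd η m B)).card := by
  obtain ⟨R, hR⟩ : ∃ R : ℤ → ℤ → Prop, R = fun x y => (x, y) ∈ nd η m B := ⟨_, rfl⟩
  have hsymm : ∀ x y, R x y → R y x := by
    intro x y hxy
    rw [hR] at hxy ⊢
    obtain ⟨h1, h2⟩ := mem_filter.1 hxy
    refine mem_filter.2 ⟨mem_product.2 (mem_product.1 h1).symm, ?_⟩
    have h3 : (y - x).natAbs = (x - y).natAbs := by omega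
    show ¬ (m : ℝ) ^ (1 - η) ≤ primePairs (3 * m) (y - x).natAbs
    rw [h3]
    exact h2
  have hRB : ∀ x y, R x y → x ∈ B ∧ y ∈ B := by
    intro x y hxy
    rw [hR] at hxy
    exact mem_product.1 (mem_filter.1 hxy).1
  obtain ⟨d, hd⟩ : ∃ d : ℤ → ℕ, d = fun x => (B.filter (fun y => R x y)).card := ⟨_, rfl⟩
  -- the number of the pairs
  have he : (nd η m B).card = ∑ x ∈ B, d x := by
    have h1 : nd η m B = (B ×ˢ B).filter (fun z => R z.1 z.2) := by
      ext ⟨x, y⟩
      rw [mem_filter, mem_product]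
      constructor
      · intro hxy
        have : R x y := by rw [hR]; exact hxy
        exact ⟨hRB x y this, this⟩
      · rintro ⟨-, hxy⟩
        have h2 : R x y := hxy
        rw [hR] at h2
        exact h2
    rw [h1, card_filter, sum_product, hd]
    refine sum_congr rfl fun x _ => ?_
    show _ = (B.filter (fun y => R x y)).card
    rw [card_filter]
  -- the number of the triples
  have htri : ∑ x ∈ B, ∑ y ∈ B.filter (fun y => R x y),
      (B.filter (fun z => R x z ∧ R y z)).card ≤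
      ((((B ×ˢ B) ×ˢ B)).filter (fun x : (ℤ × ℤ) × ℤ =>
      (x.1.1, x.1.2) ∈ nd η m B ∧ (x.1.1, x.2) ∈ nd η m B ∧ (x.1.2, x.2) ∈ nd η m B)).card := by
    rw [card_filter, sum_product, sum_product]
    refine sum_le_sum fun x _ => ?_
    rw [sum_filter]
    refine sum_le_sum fun y _ => ?_
    split_ifs with hxy
    · rw [card_filter]
      refine sum_le_sum fun z _ => ?_
      split_ifs with h1 h2 h2
      · exact le_rfl
      · exfalso
        apply h2
        rw [hR] at h1 hxy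
        exact ⟨hxy, h1.1, h1.2⟩
      · exact Nat.zero_le _
      · exact le_rfl
    · exact Nat.zero_le _
  -- common neighbours
  have hcom : ∀ x ∈ B, ∀ y ∈ B.filter (fun y => R x y),
      (d x : ℝ) + d y - B.card ≤ ((B.filter (fun z => R x z ∧ R y z)).card : ℝ) := by
    intro x _ y _
    have h1 : (B.filter (fun z => R x z)).card + (B.filter (fun z => R y z)).card ≤
        (B.filter (fun z => R x z ∧ R y z)).card + B.card := by
      rw [← card_union_add_card_inter, filter_and, add_comm]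
      exact Nat.add_le_add_left (card_le_card (union_subset (filter_subset _ _)
        (filter_subset _ _))) _
    have h2 : ((B.filter (fun z => R x z)).card : ℝ) + (B.filter (fun z => R y z)).card ≤
        (B.filter (fun z => R x z ∧ R y z)).card + B.card := by exact_mod_cast h1
    rw [hd]
    show ((B.filter (fun z => R x z)).card : ℝ) + (B.filter (fun z => R y z)).card - B.card ≤ _
    linarith
  have hdcast : ∀ x, (d x : ℝ) = ((B.filter (fun y => R x y)).card : ℝ) := by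
    intro x
    rw [hd]
  have hsum1 : ∑ x ∈ B, ∑ y ∈ B.filter (fun y => R x y), (d x : ℝ) = ∑ x ∈ B, (d x : ℝ) ^ 2 := by
    refine sum_congr rfl fun x _ => ?_
    rw [sum_const, nsmul_eq_mul, ← hdcast, sq]
  have hsum2 : ∑ x ∈ B, ∑ y ∈ B.filter (fun y => R x y), (d y : ℝ) = ∑ x ∈ B, (d x : ℝ) ^ 2 := by
    rw [← hsum1]
    simp only [sum_filter]
    rw [sum_comm]
    refine sum_congr rfl fun x _ => sum_congr rfl fun y _ => ?_
    have h1 : R y x ↔ R x y := ⟨hsymm y x, hsymm x y⟩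
    simp only [h1]
  have hsum3 : ∑ x ∈ B, ∑ y ∈ B.filter (fun y => R x y), (B.card : ℝ) =
      B.card * ∑ x ∈ B, (d x : ℝ) := by
    rw [mul_sum]
    refine sum_congr rfl fun x _ => ?_
    rw [sum_const, nsmul_eq_mul, ← hdcast, mul_comm]
  have hmain : 2 * ∑ x ∈ B, (d x : ℝ) ^ 2 - B.card * ∑ x ∈ B, (d x : ℝ) ≤
      (((((B ×ˢ B) ×ˢ B)).filter (fun x : (ℤ × ℤ) × ℤ =>
      (x.1.1, x.1.2) ∈ nd η m B ∧ (x.1.1, x.2) ∈ nd η m B ∧ (x.1.2, x.2) ∈ nd η m B)).card : ℝ) := by
    have h1 : 2 * ∑ x ∈ B, (d x : ℝ) ^ 2 - B.card * ∑ x ∈ B, (d x : ℝ) =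
        ∑ x ∈ B, ∑ y ∈ B.filter (fun y => R x y), ((d x : ℝ) + d y - B.card) := by
      simp only [sum_sub_distrib, sum_add_distrib]
      rw [hsum1, hsum2, hsum3]
      ring
    rw [h1]
    refine le_trans (sum_le_sum fun x hx => sum_le_sum fun y hy => hcom x hx y hy) ?_
    exact_mod_cast htri
  refine le_trans ?_ hmain
  have hcs : (∑ x ∈ B, (d x : ℝ)) ^ 2 ≤ B.card * ∑ x ∈ B, (d x : ℝ) ^ 2 :=
    sq_sum_le_card_mul_sum_sq
  have heR : ((nd η m B).card : ℝ) = ∑ x ∈ B, (d x : ℝ) := by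
    rw [he]
    push_cast
    rfl
  rw [heR] at h
  obtain ⟨e, hee⟩ : ∃ e : ℝ, e = ∑ x ∈ B, (d x : ℝ) := ⟨_, rfl⟩
  obtain ⟨s, hs⟩ : ∃ s : ℝ, s = ∑ x ∈ B, (d x : ℝ) ^ 2 := ⟨_, rfl⟩
  obtain ⟨n, hn⟩ : ∃ n : ℝ, n = (B.card : ℝ) := ⟨_, rfl⟩
  rw [← hee, ← hn] at h
  rw [← hee, ← hs, ← hn] at hcs
  rw [← hee, ← hs, ← hn]
  have hn0 : 0 ≤ n := by rw [hn]; exact Nat.cast_nonneg _
  rcases hn0.eq_or_lt with h0 | h0
  · have hB : B = ∅ := by
      rw [← card_eq_zero]
      have : (B.card : ℝ) = 0 := by rw [← hn, ← h0]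
      exact_mod_cast this
    have he0 : e = 0 := by rw [hee, hB, sum_empty]
    have hs0 : s = 0 := by rw [hs, hB, sum_empty]
    rw [he0, hs0, ← h0]
    norm_num
  · -- `n s ≥ e ^ 2`
    have h1 : n * (ε * n ^ 3) ≤ n * (2 * s - n * e) := by
      have h2 : e * (2 * e - n ^ 2) ≤ n * (2 * s - n * e) := by nlinarith
      refine le_trans ?_ h2
      have h3 : 2 * ε * n ^ 2 ≤ 2 * e - n ^ 2 := by linarith
      have h4 : 1 / 2 * n ^ 2 ≤ e := by nlinarith [sq_nonneg n]
      calc n * (ε * n ^ 3) = (1 / 2 * n ^ 2) * (2 * ε * n ^ 2) := by ring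
        _ ≤ e * (2 * e - n ^ 2) := mul_le_mul h4 h3 (by positivity) (by nlinarith [sq_nonneg n])
    exact le_of_mul_le_mul_left h1 h0

theorem form_fac {m : ℕ} {n₀ x : ℤ} {k : Bool} (h : IsCoprime (form k m x n₀) 6) :
    IsCoprime (form k m x n₀) ((4 : ℕ).factorial : ℤ) := by
  have h1 : ((4 : ℕ).factorial : ℤ) = 6 * 4 := by decide
  rw [h1]
  refine IsCoprime.mul_right h ?_
  have h2 : (6 : ℤ) = 2 * 3 := by norm_num
  rw [h2] at h
  have h3 := IsCoprime.of_mul_right_left h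
  have h4 : (4 : ℤ) = 2 * 2 := by norm_num
  rw [h4]
  exact IsCoprime.mul_right h3 h3

open Classical in
/-- quadruples, two and two -/
theorem two_two (η : ℝ) (m : ℕ) (A B : Finset ℤ) (hA : ∀ a ∈ A, 20 * |a| ≤ m)
    (hB : ∀ b ∈ B, 20 * |b| ≤ m) :
    (nd η m A).card * (nd η m B).card ≤ ((Fintype.piFinset ![A, A, B, B]).filter
      (fun x => Bad 1 η ![true, true, false, false] m x)).card +
        4 * ((gp η m A B).card * (A.card * B.card)) := by
  set Q := (Fintype.piFinset ![A, A, B, B]).filter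
      (fun x => Bad 1 η ![true, true, false, false] m x) with hQ
  rw [← card_product]
  set P := nd η m A ×ˢ nd η m B with hP
  have hPm : ∀ p ∈ P, p.1 ∈ nd η m A ∧ p.2 ∈ nd η m B := fun p hp => mem_product.1 hp
  have hNAs : ∀ D : Finset ℤ, ∀ x ∈ nd η m D, x.1 ∈ D ∧ x.2 ∈ D := fun D x hx =>
    mem_product.1 (mem_filter.1 hx).1
  have c0 : (P.filter (fun p => ![p.1.1, p.1.2, p.2.1, p.2.2] ∈ Q)).card ≤ Q.card := by
    refine card_le_card_of_injOn (fun p => ![p.1.1, p.1.2, p.2.1, p.2.2])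
      (fun p hp => mem_coe.2 (mem_filter.1 (mem_coe.1 hp)).2) ?_
    intro p _ p' _ h
    have e0 := congrFun h 0
    have e1 := congrFun h 1
    have e2 := congrFun h 2
    have e3 := congrFun h 3
    exact Prod.ext (Prod.ext e0 e1) (Prod.ext e2 e3)
  have hc : ∀ (u v : (ℤ × ℤ) × (ℤ × ℤ) → ℤ × ℤ), Function.Injective (fun p => (u p, v p)) →
      (∀ p ∈ P, v p ∈ A ×ˢ B) →
      (P.filter (fun p => u p ∈ gp η m A B)).card ≤ (gp η m A B).card * (A.card * B.card) := by
    intro u v huv hv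
    rw [← card_product A B, ← card_product]
    refine card_le_card_of_injOn (fun p => (u p, v p)) (fun p hp => ?_) huv.injOn
    obtain ⟨h1, h2⟩ := mem_filter.1 (mem_coe.1 hp)
    exact mem_coe.2 (mem_product.2 ⟨h2, hv p h1⟩)
  have c1 := hc (fun p => (p.1.1, p.2.1)) (fun p => (p.1.2, p.2.2))
    (fun p p' h => by
      simp only [Prod.mk.injEq] at h
      exact Prod.ext (Prod.ext h.1.1 h.2.1) (Prod.ext h.1.2 h.2.2))
    (fun p hp => mem_product.2 ⟨(hNAs A _ (hPm p hp).1).2, (hNAs B _ (hPm p hp).2).2⟩)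
  have c2 := hc (fun p => (p.1.1, p.2.2)) (fun p => (p.1.2, p.2.1))
    (fun p p' h => by
      simp only [Prod.mk.injEq] at h
      exact Prod.ext (Prod.ext h.1.1 h.2.1) (Prod.ext h.2.2 h.1.2))
    (fun p hp => mem_product.2 ⟨(hNAs A _ (hPm p hp).1).2, (hNAs B _ (hPm p hp).2).1⟩)
  have c3 := hc (fun p => (p.1.2, p.2.1)) (fun p => (p.1.1, p.2.2))
    (fun p p' h => by
      simp only [Prod.mk.injEq] at h
      exact Prod.ext (Prod.ext h.2.1 h.1.1) (Prod.ext h.1.2 h.2.2))
    (fun p hp => mem_product.2 ⟨(hNAs A _ (hPm p hp).1).1, (hNAs B _ (hPm p hp).2).2⟩)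
  have c4 := hc (fun p => (p.1.2, p.2.2)) (fun p => (p.1.1, p.2.1))
    (fun p p' h => by
      simp only [Prod.mk.injEq] at h
      exact Prod.ext (Prod.ext h.2.1 h.1.1) (Prod.ext h.2.2 h.1.2))
    (fun p hp => mem_product.2 ⟨(hNAs A _ (hPm p hp).1).1, (hNAs B _ (hPm p hp).2).1⟩)
  have hsub : P ⊆ P.filter (fun p => ![p.1.1, p.1.2, p.2.1, p.2.2] ∈ Q) ∪
      (P.filter (fun p => (p.1.1, p.2.1) ∈ gp η m A B) ∪
      (P.filter (fun p => (p.1.1, p.2.2) ∈ gp η m A B) ∪
      (P.filter (fun p => (p.1.2, p.2.1) ∈ gp η m A B) ∪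
      P.filter (fun p => (p.1.2, p.2.2) ∈ gp η m A B)))) := by
    intro p hp
    obtain ⟨h1, h2⟩ := hPm p hp
    by_cases g1 : (p.1.1, p.2.1) ∈ gp η m A B
    · exact mem_union_right _ (mem_union_left _ (mem_filter.2 ⟨hp, g1⟩))
    by_cases g2 : (p.1.1, p.2.2) ∈ gp η m A B
    · exact mem_union_right _ (mem_union_right _ (mem_union_left _ (mem_filter.2 ⟨hp, g2⟩)))
    by_cases g3 : (p.1.2, p.2.1) ∈ gp η m A B
    · exact mem_union_right _ (mem_union_right _ (mem_union_right _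
        (mem_union_left _ (mem_filter.2 ⟨hp, g3⟩))))
    by_cases g4 : (p.1.2, p.2.2) ∈ gp η m A B
    · exact mem_union_right _ (mem_union_right _ (mem_union_right _
        (mem_union_right _ (mem_filter.2 ⟨hp, g4⟩))))
    obtain ⟨a1, a2⟩ := hNAs A _ h1
    obtain ⟨b1, b2⟩ := hNAs B _ h2
    refine mem_union_left _ (mem_filter.2 ⟨hp, mem_filter.2 ⟨?_, bad_of η _ m _ ?_ ?_ ?_⟩⟩)
    · rw [Fintype.mem_piFinset]
      intro i
      fin_cases i
      · exact a1
      · exact a2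
      · exact b1
      · exact b2
    · intro i
      fin_cases i
      · exact hA _ a1
      · exact hA _ a2
      · exact hB _ b1
      · exact hB _ b2
    · intro i j hij hk
      fin_cases i <;> fin_cases j <;>
        first
        | exact absurd hij (by decide)
        | exact absurd hk (by decide)
        | exact (mem_filter.1 h1).2
        | exact (mem_filter.1 h2).2
    · intro i j hij hk
      fin_cases i <;> fin_cases j <;>
        first
        | exact absurd hij (by decide)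
        | exact absurd rfl hk
        | exact fun h => g1 (mem_filter.2 ⟨mem_product.2 ⟨a1, b1⟩, h⟩)
        | exact fun h => g2 (mem_filter.2 ⟨mem_product.2 ⟨a1, b2⟩, h⟩)
        | exact fun h => g3 (mem_filter.2 ⟨mem_product.2 ⟨a2, b1⟩, h⟩)
        | exact fun h => g4 (mem_filter.2 ⟨mem_product.2 ⟨a2, b2⟩, h⟩)
  refine (card_le_card hsub).trans ?_
  refine (card_union_le _ _).trans ?_
  have u1 := card_union_le (P.filter (fun p => (p.1.1, p.2.1) ∈ gp η m A B))
    (P.filter (fun p => (p.1.1, p.2.2) ∈ gp η m A B) ∪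
      (P.filter (fun p => (p.1.2, p.2.1) ∈ gp η m A B) ∪
      P.filter (fun p => (p.1.2, p.2.2) ∈ gp η m A B)))
  have u2 := card_union_le (P.filter (fun p => (p.1.1, p.2.2) ∈ gp η m A B))
      (P.filter (fun p => (p.1.2, p.2.1) ∈ gp η m A B) ∪
      P.filter (fun p => (p.1.2, p.2.2) ∈ gp η m A B))
  have u3 := card_union_le (P.filter (fun p => (p.1.2, p.2.1) ∈ gp η m A B))
      (P.filter (fun p => (p.1.2, p.2.2) ∈ gp η m A B))
  omega

open Classical in
/-- quadruples, one and three -/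
theorem one_three (η : ℝ) (m : ℕ) (A B : Finset ℤ) (hA : ∀ a ∈ A, 20 * |a| ≤ m)
    (hB : ∀ b ∈ B, 20 * |b| ≤ m) (k : Bool) :
    A.card * ((((B ×ˢ B) ×ˢ B)).filter (fun x : (ℤ × ℤ) × ℤ =>
      (x.1.1, x.1.2) ∈ nd η m B ∧ (x.1.1, x.2) ∈ nd η m B ∧ (x.1.2, x.2) ∈ nd η m B)).card ≤
      ((Fintype.piFinset ![A, B, B, B]).filter
      (fun x => Bad 1 η ![k, !k, !k, !k] m x)).card +
        3 * ((gp η m A B).card * (B.card * B.card)) := by
  set Q := (Fintype.piFinset ![A, B, B, B]).filter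
      (fun x => Bad 1 η ![k, !k, !k, !k] m x) with hQ
  set Tr := (((B ×ˢ B) ×ˢ B)).filter (fun x : (ℤ × ℤ) × ℤ =>
      (x.1.1, x.1.2) ∈ nd η m B ∧ (x.1.1, x.2) ∈ nd η m B ∧ (x.1.2, x.2) ∈ nd η m B) with hTr
  rw [← card_product]
  set P := A ×ˢ Tr with hP
  have hPm : ∀ p ∈ P, p.1 ∈ A ∧ p.2 ∈ Tr := fun p hp => mem_product.1 hp
  have hTrB : ∀ z ∈ Tr, z.1.1 ∈ B ∧ z.1.2 ∈ B ∧ z.2 ∈ B := by
    intro z hz
    obtain ⟨h1, h2⟩ := mem_product.1 (mem_filter.1 hz).1
    obtain ⟨h3, h4⟩ := mem_product.1 h1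
    exact ⟨h3, h4, h2⟩
  have c0 : (P.filter (fun p => ![p.1, p.2.1.1, p.2.1.2, p.2.2] ∈ Q)).card ≤ Q.card := by
    refine card_le_card_of_injOn (fun p => ![p.1, p.2.1.1, p.2.1.2, p.2.2])
      (fun p hp => mem_coe.2 (mem_filter.1 (mem_coe.1 hp)).2) ?_
    intro p _ p' _ h
    have e0 := congrFun h 0
    have e1 := congrFun h 1
    have e2 := congrFun h 2
    have e3 := congrFun h 3
    exact Prod.ext e0 (Prod.ext (Prod.ext e1 e2) e3)
  have hc : ∀ (u v : ℤ × ((ℤ × ℤ) × ℤ) → ℤ × ℤ), Function.Injective (fun p => (u p, v p)) →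
      (∀ p ∈ P, v p ∈ B ×ˢ B) →
      (P.filter (fun p => u p ∈ gp η m A B)).card ≤ (gp η m A B).card * (B.card * B.card) := by
    intro u v huv hv
    rw [← card_product B B, ← card_product]
    refine card_le_card_of_injOn (fun p => (u p, v p)) (fun p hp => ?_) huv.injOn
    obtain ⟨h1, h2⟩ := mem_filter.1 (mem_coe.1 hp)
    exact mem_coe.2 (mem_product.2 ⟨h2, hv p h1⟩)
  have c1 := hc (fun p => (p.1, p.2.1.1)) (fun p => (p.2.1.2, p.2.2))
    (fun p p' h => by
      simp only [Prod.mk.injEq] at h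
      exact Prod.ext h.1.1 (Prod.ext (Prod.ext h.1.2 h.2.1) h.2.2))
    (fun p hp => mem_product.2 ⟨(hTrB _ (hPm p hp).2).2.1, (hTrB _ (hPm p hp).2).2.2⟩)
  have c2 := hc (fun p => (p.1, p.2.1.2)) (fun p => (p.2.1.1, p.2.2))
    (fun p p' h => by
      simp only [Prod.mk.injEq] at h
      exact Prod.ext h.1.1 (Prod.ext (Prod.ext h.2.1 h.1.2) h.2.2))
    (fun p hp => mem_product.2 ⟨(hTrB _ (hPm p hp).2).1, (hTrB _ (hPm p hp).2).2.2⟩)
  have c3 := hc (fun p => (p.1, p.2.2)) (fun p => (p.2.1.1, p.2.1.2))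
    (fun p p' h => by
      simp only [Prod.mk.injEq] at h
      exact Prod.ext h.1.1 (Prod.ext (Prod.ext h.2.1 h.2.2) h.1.2))
    (fun p hp => mem_product.2 ⟨(hTrB _ (hPm p hp).2).1, (hTrB _ (hPm p hp).2).2.1⟩)
  have hsub : P ⊆ P.filter (fun p => ![p.1, p.2.1.1, p.2.1.2, p.2.2] ∈ Q) ∪
      (P.filter (fun p => (p.1, p.2.1.1) ∈ gp η m A B) ∪
      (P.filter (fun p => (p.1, p.2.1.2) ∈ gp η m A B) ∪
      P.filter (fun p => (p.1, p.2.2) ∈ gp η m A B))) := by
    intro p hp
    obtain ⟨h1, h2⟩ := hPm p hp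
    by_cases g1 : (p.1, p.2.1.1) ∈ gp η m A B
    · exact mem_union_right _ (mem_union_left _ (mem_filter.2 ⟨hp, g1⟩))
    by_cases g2 : (p.1, p.2.1.2) ∈ gp η m A B
    · exact mem_union_right _ (mem_union_right _ (mem_union_left _ (mem_filter.2 ⟨hp, g2⟩)))
    by_cases g3 : (p.1, p.2.2) ∈ gp η m A B
    · exact mem_union_right _ (mem_union_right _ (mem_union_right _ (mem_filter.2 ⟨hp, g3⟩)))
    obtain ⟨b1, b2, b3⟩ := hTrB _ h2
    obtain ⟨n1, n2, n3⟩ := (mem_filter.1 h2).2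
    refine mem_union_left _ (mem_filter.2 ⟨hp, mem_filter.2 ⟨?_, bad_of η _ m _ ?_ ?_ ?_⟩⟩)
    · rw [Fintype.mem_piFinset]
      intro i
      fin_cases i
      · exact h1
      · exact b1
      · exact b2
      · exact b3
    · intro i
      fin_cases i
      · exact hA _ h1
      · exact hB _ b1
      · exact hB _ b2
      · exact hB _ b3
    · intro i j hij hk
      fin_cases i <;> fin_cases j <;>
        first
        | exact absurd hij (by decide)
        | (exfalso; revert hk; cases k <;> decide)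
        | exact (mem_filter.1 n1).2
        | exact (mem_filter.1 n2).2
        | exact (mem_filter.1 n3).2
    · intro i j hij hk
      fin_cases i <;> fin_cases j <;>
        first
        | exact absurd hij (by decide)
        | exact absurd rfl hk
        | exact fun h => g1 (mem_filter.2 ⟨mem_product.2 ⟨h1, b1⟩, h⟩)
        | exact fun h => g2 (mem_filter.2 ⟨mem_product.2 ⟨h1, b2⟩, h⟩)
        | exact fun h => g3 (mem_filter.2 ⟨mem_product.2 ⟨h1, b3⟩, h⟩)
  refine (card_le_card hsub).trans ?_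
  refine (card_union_le _ _).trans ?_
  have u1 := card_union_le (P.filter (fun p => (p.1, p.2.1.1) ∈ gp η m A B))
    (P.filter (fun p => (p.1, p.2.1.2) ∈ gp η m A B) ∪
      P.filter (fun p => (p.1, p.2.2) ∈ gp η m A B))
  have u2 := card_union_le (P.filter (fun p => (p.1, p.2.1.2) ∈ gp η m A B))
      (P.filter (fun p => (p.1, p.2.2) ∈ gp η m A B))
  omega

/-- **The alternative.** -/
theorem alt : ∃ (C : ℝ) (E : ℕ), 1 ≤ C ∧ ∀ η : ℝ, 0 < η → ∀ᶠ m : ℕ in atTop,
    ∀ (ε : ℝ) (A B : Finset ℤ) (n₀ : ℤ), 0 < ε → ε ≤ 1 →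
      C / ε ^ E ≤ A.card → C / ε ^ E ≤ B.card →
      (∀ a ∈ A, 20 * |a| ≤ m) → (∀ b ∈ B, 20 * |b| ≤ m) →
      (∀ a ∈ A, IsCoprime (n₀ + a) 6) → (∀ b ∈ B, IsCoprime (m + b - n₀) 6) →
      ε ^ 2 / 5 * (A.card * B.card : ℝ) ≤ (gp η m A B).card ∨
      ((1 - ε) * (A.card : ℝ) ^ 2 ≤ (pd η m A).card ∧
        (1 / 2 - ε) * (B.card : ℝ) ^ 2 ≤ (pd η m B).card) ∨
      ((1 / 2 - ε) * (A.card : ℝ) ^ 2 ≤ (pd η m A).card ∧
        (1 - ε) * (B.card : ℝ) ^ 2 ≤ (pd η m B).card) := by
  classical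
  obtain ⟨c, hc, hc1, H⟩ := main
  obtain ⟨C, E, hC, H⟩ := H 4 1 (by push_cast; linarith)
  refine ⟨C * 5 ^ E, 2 * E, ?_, fun η hη => ?_⟩
  · have : (1 : ℝ) ≤ 5 ^ E := one_le_pow₀ (by norm_num)
    nlinarith
  filter_upwards [H η hη] with m hm
  intro ε A B n₀ hε hε1 hAc hBc hA hB hA6 hB6
  have hε2 : 0 < ε ^ 2 / 5 := by positivity
  have hε3 : ε ^ 2 / 5 ≤ 1 := by nlinarith
  have hsz : C * 5 ^ E / ε ^ (2 * E) = C / (ε ^ 2 / 5) ^ E := by
    rw [div_pow, ← pow_mul, div_div_eq_mul_div]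
  rw [hsz] at hAc hBc
  obtain ⟨a, ha⟩ : ∃ a : ℝ, a = A.card := ⟨_, rfl⟩
  obtain ⟨b, hb⟩ : ∃ b : ℝ, b = B.card := ⟨_, rfl⟩
  have hpos : ∀ x : ℝ, C / (ε ^ 2 / 5) ^ E ≤ x → 0 < x := fun x hx =>
    lt_of_lt_of_le (by positivity) hx
  have ha0 : 0 < a := by rw [ha]; exact hpos _ hAc
  have hb0 : 0 < b := by rw [hb]; exact hpos _ hBc
  have hfA : ∀ x ∈ A, IsCoprime (form true m x n₀) ((4 : ℕ).factorial : ℤ) := fun x hx =>
    form_fac (k := true) (hA6 x hx)
  have hfB : ∀ x ∈ B, IsCoprime (form false m x n₀) ((4 : ℕ).factorial : ℤ) := fun x hx =>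
    form_fac (k := false) (hB6 x hx)
  by_cases hgp : ε ^ 2 / 5 * (A.card * B.card : ℝ) ≤ (gp η m A B).card
  · exact Or.inl hgp
  right
  rw [not_le, ← ha, ← hb] at hgp
  -- two and two
  have h22 : ¬ (ε * a ^ 2 ≤ (nd η m A).card ∧ ε * b ^ 2 ≤ (nd η m B).card) := by
    rintro ⟨h1, h2⟩
    have h3 := two_two η m A B hA hB
    have h4 := hm (ε ^ 2 / 5) ![true, true, false, false] ![A, A, B, B] n₀ hε2 hε3
      (by
        intro g
        fin_cases g
        · exact hAc
        · exact hAc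
        · exact hBc
        · exact hBc)
      (by
        intro g
        fin_cases g
        · exact hA
        · exact hA
        · exact hB
        · exact hB)
      (by
        intro g
        fin_cases g
        · exact hfA
        · exact hfA
        · exact hfB
        · exact hfB)
    rw [Fin.prod_univ_four] at h4
    have h5 : ((((![A, A, B, B] : Fin 4 → Finset ℤ) 0).card : ℝ) *
        ((![A, A, B, B] : Fin 4 → Finset ℤ) 1).card *
        ((![A, A, B, B] : Fin 4 → Finset ℤ) 2).card *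
        ((![A, A, B, B] : Fin 4 → Finset ℤ) 3).card) = a * a * b * b := by
      rw [ha, hb]
      rfl
    rw [h5] at h4
    have h3r := (Nat.cast_le (α := ℝ)).2 h3
    push_cast at h3r
    rw [← ha, ← hb] at h3r
    have h6 : (ε * a ^ 2) * (ε * b ^ 2) ≤ ((nd η m A).card : ℝ) * (nd η m B).card :=
      mul_le_mul h1 h2 (by positivity) (Nat.cast_nonneg _)
    have h7 : ((gp η m A B).card : ℝ) * (a * b) < ε ^ 2 / 5 * (a * b) * (a * b) :=
      mul_lt_mul_of_pos_right hgp (by positivity)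
    nlinarith
  -- one and three
  have h13 : ∀ (U V : Finset ℤ) (k : Bool), C / (ε ^ 2 / 5) ^ E ≤ (U.card : ℝ) →
      C / (ε ^ 2 / 5) ^ E ≤ (V.card : ℝ) → (∀ x ∈ U, 20 * |x| ≤ m) → (∀ x ∈ V, 20 * |x| ≤ m) →
      (∀ x ∈ U, IsCoprime (form k m x n₀) ((4 : ℕ).factorial : ℤ)) →
      (∀ x ∈ V, IsCoprime (form (!k) m x n₀) ((4 : ℕ).factorial : ℤ)) →
      ((gp η m U V).card : ℝ) < ε ^ 2 / 5 * ((U.card : ℝ) * V.card) →
      (1 / 2 - ε) * (V.card : ℝ) ^ 2 ≤ (pd η m V).card := by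
    intro U V k hU hV hU2 hV2 hU3 hV3 hUV
    by_contra hcon
    rw [not_le] at hcon
    have hpn := pd_nd η m V
    have h1 : (1 / 2 + ε) * (V.card : ℝ) ^ 2 ≤ (nd η m V).card := by
      obtain ⟨w, hw⟩ : ∃ w : ℝ, w = (V.card : ℝ) ^ 2 := ⟨_, rfl⟩
      rw [← hw] at hcon hpn ⊢
      linarith
    have h2 := goodman η m V ε hε h1
    have h3 := one_three η m U V hU2 hV2 k
    have h4 := hm (ε ^ 2 / 5) ![k, !k, !k, !k] ![U, V, V, V] n₀ hε2 hε3
      (by
        intro g
        fin_cases g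
        · exact hU
        · exact hV
        · exact hV
        · exact hV)
      (by
        intro g
        fin_cases g
        · exact hU2
        · exact hV2
        · exact hV2
        · exact hV2)
      (by
        intro g
        fin_cases g
        · exact hU3
        · exact hV3
        · exact hV3
        · exact hV3)
    rw [Fin.prod_univ_four] at h4
    obtain ⟨u, hu⟩ : ∃ u : ℝ, u = U.card := ⟨_, rfl⟩
    obtain ⟨v, hv⟩ : ∃ v : ℝ, v = V.card := ⟨_, rfl⟩
    have hu0 : 0 < u := by rw [hu]; exact hpos _ hU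
    have hv0 : 0 < v := by rw [hv]; exact hpos _ hV
    have h5 : ((((![U, V, V, V] : Fin 4 → Finset ℤ) 0).card : ℝ) *
        ((![U, V, V, V] : Fin 4 → Finset ℤ) 1).card *
        ((![U, V, V, V] : Fin 4 → Finset ℤ) 2).card *
        ((![U, V, V, V] : Fin 4 → Finset ℤ) 3).card) = u * v * v * v := by
      rw [hu, hv]
      rfl
    rw [h5] at h4
    have h3r := (Nat.cast_le (α := ℝ)).2 h3
    push_cast at h3r
    rw [← hu, ← hv] at h3r
    rw [← hv] at h2
    rw [← hu, ← hv] at hUV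
    have h6 := mul_le_mul_of_nonneg_left h2 hu0.le
    have h7 : ((gp η m U V).card : ℝ) * (v * v) < ε ^ 2 / 5 * (u * v) * (v * v) :=
      mul_lt_mul_of_pos_right hUV (by positivity)
    have h8 : ε ^ 2 ≤ ε := by nlinarith
    have h9 : 0 < u * v ^ 3 := by positivity
    have h10 : ε ^ 2 * (u * v ^ 3) ≤ ε * (u * v ^ 3) := mul_le_mul_of_nonneg_right h8 h9.le
    have h11 : 0 < ε * (u * v ^ 3) := by positivity
    nlinarith
  have hB13 := h13 A B true hAc hBc hA hB hfA hfB (by rw [← ha, ← hb]; exact hgp)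
  have hA13 := h13 B A false hBc hAc hB hA hfB hfA (by
    rw [gp_swap, ← ha, ← hb, mul_comm b a]; exact hgp)
  have hpA := pd_nd η m A
  have hpB := pd_nd η m B
  by_cases h1 : ε * a ^ 2 ≤ (nd η m A).card
  · have h2 : ¬ ε * b ^ 2 ≤ (nd η m B).card := fun h2 => h22 ⟨h1, h2⟩
    right
    refine ⟨hA13, ?_⟩
    rw [not_le] at h2
    rw [← hb] at hpB ⊢
    linarith
  · left
    refine ⟨?_, hB13⟩
    rw [not_le] at h1
    rw [← ha] at hpA ⊢
    linarith

end Run7.h619.PS
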